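import Pool.Agent.Y772.CB.Two
import Pool.Agent.Y772.SL.Res

/-!
# A cubic field in a Galois extension of degree six: characters
-/

set_option autoImplicit false

open NumberField Complex Filter Topology Ideal
open scoped Pointwise

namespace Pool.Agent.Y772.CB

open Pool.Agent.Y773 Pool.Agent.Y772.SK Pool.Agent.Y772.SL Pool.Agent.Y772.NZ

variable {K L : Type} [Field K] [NumberField K] [Field L] [NumberField L] [Algebra K L]

/-- the character `ψ ∘ N_{L/K}` -/
noncomputable def up (L : Type) [Field L] [NumberField L] [Algebra K L]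
    (ψ : Ideal (𝓞 K) →*₀ ℂ) : Ideal (𝓞 L) →*₀ ℂ := ψ.comp (relNorm (𝓞 K))

lemma up_apply (ψ : Ideal (𝓞 K) →*₀ ℂ) (I : Ideal (𝓞 L)) : up L ψ I = ψ (relNorm (𝓞 K) I) := rfl

/-- the norm of an integer `≡ 1 mod M` is `≡ 1 mod M` -/
lemma intNorm_one (hG : IsGalois ℚ L) {M : ℕ} (hM : 0 < M) {x : 𝓞 L}
    (hx : x - 1 ∈ Ideal.span {(M : 𝓞 L)}) :
    Algebra.intNorm (𝓞 K) (𝓞 L) x - 1 ∈ Ideal.span {(M : 𝓞 K)} := by
  have hGK : IsGalois K L := IsGalois.tower_top_of_isGalois ℚ K L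
  obtain ⟨z, hz⟩ := Ideal.mem_span_singleton.1 hx
  have h1 : ((Algebra.intNorm (𝓞 K) (𝓞 L) x : 𝓞 K) : K) = Algebra.norm K (x : L) :=
    Algebra.algebraMap_intNorm (A := 𝓞 K) (K := K) (L := L) (B := 𝓞 L) x
  have h2 := Algebra.norm_eq_prod_automorphisms K (x : L)
  rw [← h1] at h2
  -- the product modulo `M`
  have h3 : ∀ s : Finset Gal(L/K), ∃ w : L, IsIntegral ℤ w ∧
      ∏ σ ∈ s, σ (x : L) = 1 + (M : L) * w := by
    classical
    intro s
    induction s using Finset.induction_on with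
    | empty => exact ⟨0, isIntegral_zero, by simp⟩
    | insert σ s hσ ih =>
      obtain ⟨w, hw, hw'⟩ := ih
      have h4 : σ (x : L) = 1 + (M : L) * σ (z : L) := by
        have h5 : (x : L) = 1 + (M : L) * (z : L) := by
          have h6 := congrArg (algebraMap (𝓞 L) L) hz
          rw [map_sub, map_one, map_mul, map_natCast] at h6
          linear_combination h6
        rw [h5, map_add, map_one, map_mul, map_natCast]
      have hσz : IsIntegral ℤ (σ (z : L)) :=
        (RingOfIntegers.isIntegral_coe z).map (σ.restrictScalars ℤ : L ≃ₐ[ℤ] L)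
      refine ⟨σ (z : L) + w + (M : L) * σ (z : L) * w, ?_, ?_⟩
      · refine (hσz.add hw).add (((isIntegral_natCast M).mul hσz).mul hw)
      · rw [Finset.prod_insert hσ, hw', h4]
        ring
  obtain ⟨w, hw, hw'⟩ := h3 Finset.univ
  rw [hw'] at h2
  have hM0 : (M : K) ≠ 0 := by exact_mod_cast hM.ne'
  set v : K := (((Algebra.intNorm (𝓞 K) (𝓞 L) x : 𝓞 K) : K) - 1) / M with hv
  have h4 : algebraMap K L v = w := by
    rw [hv, map_div₀, map_sub, h2, map_one, map_natCast]
    have hM0' : (M : L) ≠ 0 := by exact_mod_cast hM.ne'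
    field_simp
    ring
  have h5 : IsIntegral ℤ v := by
    rw [← isIntegral_algebraMap_iff (algebraMap K L).injective, h4]
    exact hw
  obtain ⟨V, hV⟩ : ∃ V : 𝓞 K, algebraMap (𝓞 K) K V = v := ⟨⟨v, h5⟩, rfl⟩
  refine Ideal.mem_span_singleton.2 ⟨V, ?_⟩
  apply FaithfulSMul.algebraMap_injective (𝓞 K) K
  rw [map_sub, map_one, map_mul, map_natCast, hV, hv]
  field_simp

/-- the norm of a totally positive integer is totally positive -/
lemma intNorm_pos (hG : IsGalois ℚ L) [IsTotallyReal L] {x : 𝓞 L} (hx : TPos L x) :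
    TPos K (Algebra.intNorm (𝓞 K) (𝓞 L) x) := by
  intro σ
  have hGK : IsGalois K L := IsGalois.tower_top_of_isGalois ℚ K L
  have h1 : ((Algebra.intNorm (𝓞 K) (𝓞 L) x : 𝓞 K) : K) = Algebra.norm K (x : L) :=
    Algebra.algebraMap_intNorm (A := 𝓞 K) (K := K) (L := L) (B := 𝓞 L) x
  have h2 := Algebra.norm_eq_prod_automorphisms K (x : L)
  rw [← h1] at h2
  set φ : K →+* ℂ := Complex.ofRealHom.comp σ with hφ
  set Φ : L →+* ℂ := ComplexEmbedding.lift L φ with hΦ
  have h3 : ∀ y : K, Φ (algebraMap K L y) = φ y := fun y =>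
    congrArg (fun f : K →+* ℂ => f y) (ComplexEmbedding.lift_comp_algebraMap (K := L) φ)
  have h4 : ∀ τ : Gal(L/K), ∃ r : ℝ, 0 < r ∧ Φ (τ (x : L)) = (r : ℂ) := by
    intro τ
    set θ : L →+* ℂ := Φ.comp (τ : L →+* L) with hθ
    have hreal : ComplexEmbedding.IsReal θ := IsTotallyReal.complexEmbedding_isReal θ
    refine ⟨hreal.embedding (x : L), hx hreal.embedding, ?_⟩
    rw [ComplexEmbedding.IsReal.coe_embedding_apply]
    rfl
  choose r hr0 hr using h4
  have h5 := congrArg Φ h2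
  rw [h3, map_prod, Finset.prod_congr rfl fun τ _ => hr τ] at h5
  have h6 : ((σ ((Algebra.intNorm (𝓞 K) (𝓞 L) x : 𝓞 K) : K) : ℝ) : ℂ) =
      ((∏ τ : Gal(L/K), r τ : ℝ) : ℂ) := by
    rw [Complex.ofReal_prod]
    exact h5
  rw [Complex.ofReal_inj] at h6
  rw [h6]
  exact Finset.prod_pos fun τ _ => hr0 τ

/-- the character `ψ ∘ N_{L/K}` modulo a rational integer -/
lemma up_mod [IsTotallyReal K] [IsTotallyReal L] (hG : IsGalois ℚ L) {M : ℕ} (hM : 2 ≤ M)
    {e : InfinitePlace K → ℕ} {η : Ideal (𝓞 K) →*₀ ℂ}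
    (h : IsModChar (Ideal.span {(M : 𝓞 K)}) e η) :
    ∃ e', IsModChar (Ideal.span {(M : 𝓞 L)}) e' (up L η) := by
  refine NV.exists_sig ?_ (span_ne_top hM) (fun 𝔞 _ => ?_) fun x hx hp => ?_
  · rw [Ne, Ideal.span_singleton_eq_bot, Nat.cast_eq_zero]
    omega
  · rw [up_apply, h.supp, TW.coprime_q, TW.coprime_q, absNorm_relNorm]
  · rw [up_apply, relNorm_singleton]
    have h1 := intNorm_one (K := K) hG (by omega : 0 < M) hx
    have h2 := intNorm_pos (K := K) hG hp
    have h3 : Algebra.intNorm (𝓞 K) (𝓞 L) x ≠ 0 := by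
      intro h0
      obtain ⟨w⟩ : Nonempty (InfinitePlace K) := inferInstance
      have := h2 (rl w)
      rw [h0] at this
      simp at this
    rw [h.sig _ h3 h1]
    unfold sg
    refine Finset.prod_eq_one fun w _ => ?_
    rw [sign_pos (h2 (rl w))]
    simp

end Pool.Agent.Y772.CB
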