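import Mathlib

/-!
# The Galois closure of a cubic field
-/

set_option autoImplicit false

open NumberField Polynomial

namespace Pool.Agent.Y772.CB

lemma conj_fix {K : Type} [Field K] (φ : K →+* ℂ) (h : ComplexEmbedding.IsReal φ) (x : K) :
    (starRingEnd ℂ) (φ x) = φ x := by
  have h1 : ComplexEmbedding.conjugate φ = φ := h
  have h2 := congrArg (fun f : K →+* ℂ => f x) h1
  simpa [ComplexEmbedding.conjugate_coe_eq] using h2

lemma exists_split (f : ℚ[X]) : ∃ (L : Type) (_ : Field L) (_ : NumberField L),
    IsSplittingField ℚ L f := by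
  have h : @IsSplittingField ℚ f.SplittingField _ _ DivisionRing.toRatAlgebra f := by
    have h1 := Polynomial.IsSplittingField.splittingField f
    convert h1
    exact Subsingleton.elim _ _
  refine ⟨f.SplittingField, inferInstance, ?_, h⟩
  exact { to_charZero := inferInstance
          to_finiteDimensional := IsSplittingField.finiteDimensional f.SplittingField f }

lemma card_gal_le {L : Type} [Field L] [NumberField L] (f : ℚ[X]) [hs : IsSplittingField ℚ L f]
    (hsep : f.Separable) (h3 : f.natDegree = 3) : Nat.card Gal(L/ℚ) ≤ 6 := by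
  classical
  have hspl : (f.map (algebraMap ℚ L)).Splits := IsSplittingField.splits L f
  have hfact : Fact (f.map (algebraMap ℚ L)).Splits := ⟨hspl⟩
  have hinj := Polynomial.Gal.galActionHom_injective f L
  have hc1 : Nat.card f.Gal ≤ Nat.card (Equiv.Perm (f.rootSet L)) :=
    Nat.card_le_card_of_injective _ hinj
  have hc2 : Nat.card (Equiv.Perm (f.rootSet L)) = 6 := by
    rw [Nat.card_eq_fintype_card, Fintype.card_perm, card_rootSet_eq_natDegree hsep hspl, h3]
    rfl
  have hc3 : Nat.card Gal(L/ℚ) = Nat.card f.Gal :=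
    Nat.card_congr (AlgEquiv.autCongr (IsSplittingField.algEquiv L f)).toEquiv
  omega

theorem exists_closure (K : Type) [Field K] [NumberField K] (h3 : Module.finrank ℚ K = 3)
    (hK : ¬ IsGalois ℚ K) : ∃ (L : Type) (_ : Field L) (_ : NumberField L) (_ : Algebra K L),
      IsGalois ℚ L ∧ Module.finrank K L = 2 ∧ (IsTotallyReal K → IsTotallyReal L) := by
  classical
  set pb : PowerBasis ℚ K := Field.powerBasisOfFiniteOfSeparable ℚ K with hpb
  set f : ℚ[X] := minpoly ℚ pb.gen with hf
  have hdeg : f.natDegree = 3 := by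
    rw [hf, pb.natDegree_minpoly, ← pb.finrank, h3]
  have hirr : Irreducible f := minpoly.irreducible (Algebra.IsIntegral.isIntegral pb.gen)
  have hsep : f.Separable := hirr.separable
  have hf0 : f ≠ 0 := hirr.ne_zero
  obtain ⟨L, _, _, hspf⟩ := exists_split f
  have hGal : IsGalois ℚ L := IsGalois.of_separable_splitting_field hsep
  have hspl : (f.map (algebraMap ℚ L)).Splits := IsSplittingField.splits L f
  have hdeg' : (f.map (algebraMap ℚ L)).degree ≠ 0 := by
    rw [degree_map, degree_eq_natDegree hf0, hdeg]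
    norm_num
  obtain ⟨β, hβ⟩ := hspl.exists_eval_eq_zero hdeg'
  have hβ' : aeval β f = 0 := by rwa [aeval_def, ← eval_map]
  let φ : K →ₐ[ℚ] L := pb.lift β hβ'
  let algKL : Algebra K L := φ.toRingHom.toAlgebra
  refine ⟨L, inferInstance, inferInstance, algKL, hGal, ?_, ?_⟩
  · have hmul := Module.finrank_mul_finrank ℚ K L
    rw [h3] at hmul
    have hc3 : Nat.card Gal(L/ℚ) = Module.finrank ℚ L := IsGalois.card_aut_eq_finrank ℚ L
    have hc4 := card_gal_le (L := L) f hsep hdeg
    have hpos : 0 < Module.finrank K L := Module.finrank_pos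
    have hne1 : Module.finrank K L ≠ 1 := by
      intro h1
      apply hK
      have hbij : Function.Bijective (algebraMap K L) :=
        Algebra.finrank_eq_one_iff_bijective_algebraMap.1 h1
      have e : K ≃ₐ[ℚ] L := AlgEquiv.ofBijective φ hbij
      exact IsGalois.of_algEquiv e.symm
    omega
  · intro hreal
    have key : ∀ θ : L →+* ℂ, ComplexEmbedding.IsReal θ := by
      intro θ
      have hext : (RingHom.toRatAlgHom ((starRingEnd ℂ).comp θ) : L →ₐ[ℚ] ℂ) =
          (RingHom.toRatAlgHom θ : L →ₐ[ℚ] ℂ) := by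
        refine AlgHom.ext_of_adjoin_eq_top (IsSplittingField.adjoin_rootSet L f) ?_
        intro b hb
        have hb' : aeval b f = 0 := (mem_rootSet.1 hb).2
        have hθb : aeval (θ b) f = 0 := by
          have h1 := congrArg (RingHom.toRatAlgHom θ : L →ₐ[ℚ] ℂ) hb'
          rw [map_zero, ← aeval_algHom_apply] at h1
          exact h1
        have h4 : (pb.lift (θ b) hθb : K →ₐ[ℚ] ℂ) pb.gen = θ b := pb.lift_gen _ _
        have h5 := conj_fix ((pb.lift (θ b) hθb : K →ₐ[ℚ] ℂ) : K →+* ℂ)
          (IsTotallyReal.complexEmbedding_isReal _) pb.gen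
        have h6 : ((pb.lift (θ b) hθb : K →ₐ[ℚ] ℂ) : K →+* ℂ) pb.gen = θ b := h4
        rw [h6] at h5
        exact h5
      unfold ComplexEmbedding.IsReal
      rw [isSelfAdjoint_iff]
      ext x
      have h7 := congrArg (fun g : L →ₐ[ℚ] ℂ => g x) hext
      exact h7
    exact ⟨fun v => (InfinitePlace.isReal_iff).2 (key _)⟩

end Pool.Agent.Y772.CB
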