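import Pool.Agent.Y772.CB.Grp

/-!
# A cubic field in a Galois extension of degree six: prime ideals
-/

set_option autoImplicit false

open NumberField Complex Filter Topology Ideal
open scoped Pointwise

namespace Pool.Agent.Y772.CB

open Pool.Agent.Y773 Pool.Agent.Y772.SK Pool.Agent.Y772.SL Pool.Agent.Y772.NZ

variable {K L : Type} [Field K] [NumberField K] [Field L] [NumberField L] [Algebra K L]

lemma smulComm : SMulCommClass Gal(L/K) (𝓞 K) (𝓞 L) := ⟨fun t a x => by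
  rw [Algebra.smul_def, Algebra.smul_def, MulSemiringAction.smul_mul]
  congr 1
  apply RingOfIntegers.ext
  exact t.commutes (a : K)⟩

/-- the sum over the conjugates -/
lemma fiber_sum (hG : IsGalois ℚ L) {p : ℕ} (hp : p.Prime) {Q₀ : Ideal (𝓞 L)}
    (hQ₀ : absNorm Q₀ = p) (hd : ¬ Q₀ ∣ differentIdeal ℤ (𝓞 L)) (f : Ideal (𝓞 K) → ℂ) :
    ∑ g : Gal(L/ℚ), f (relNorm (𝓞 K) (g • Q₀)) =
      (Module.finrank K L : ℂ) * ∑ᶠ P ∈ {P : Ideal (𝓞 K) | absNorm P = p}, f P := by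
  classical
  obtain ⟨hinj, hran⟩ := orbit' hG hp hQ₀ hd
  have hfin : {P : Ideal (𝓞 K) | absNorm P = p}.Finite := Ideal.finite_setOfPred_absNorm_eq p
  have hn : ∀ g : Gal(L/ℚ), absNorm (g • Q₀) = p := fun g => by rw [absNorm_smul', hQ₀]
  have hmap : ∀ g ∈ (Finset.univ : Finset Gal(L/ℚ)),
      relNorm (𝓞 K) (g • Q₀) ∈ hfin.toFinset := by
    intro g _
    rw [Set.Finite.mem_toFinset]
    exact (over_relNorm hp (hn g)).1
  rw [← Finset.sum_fiberwise_of_maps_to hmap, finsum_mem_eq_finite_toFinset_sum _ hfin,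
    Finset.mul_sum]
  refine Finset.sum_congr rfl fun P hP => ?_
  rw [Set.Finite.mem_toFinset] at hP
  have hP' : absNorm P = p := hP
  have h1 : ∑ g ∈ (Finset.univ : Finset Gal(L/ℚ)) with relNorm (𝓞 K) (g • Q₀) = P,
      f (relNorm (𝓞 K) (g • Q₀)) =
      ∑ g ∈ (Finset.univ : Finset Gal(L/ℚ)) with relNorm (𝓞 K) (g • Q₀) = P, f P := by
    refine Finset.sum_congr rfl fun g hg => ?_
    rw [(Finset.mem_filter.1 hg).2]
  rw [h1, Finset.sum_const, nsmul_eq_mul]
  congr 1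
  -- the size of the fibre
  obtain ⟨Q, hQp, hQP, hQl⟩ := exists_over (L := L) hp hP'
  have hQn : absNorm Q = p := by
    have : Q ∈ (span {(p : ℤ)}).primesOver (𝓞 L) := ⟨hQp, hQl⟩
    rw [← primesOver_eq hG hp hQ₀] at this
    exact this
  obtain ⟨g₁, hg₁⟩ : ∃ g₁ : Gal(L/ℚ), g₁ • Q₀ = Q := by
    have : Q ∈ Set.range (fun g : Gal(L/ℚ) => g • Q₀) := by rw [hran]; exact hQn
    exact this
  have h2 : ((Finset.univ : Finset Gal(L/ℚ)).filter
      fun g => relNorm (𝓞 K) (g • Q₀) = P) =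
      ((Finset.univ : Finset Gal(L/ℚ)).filter fun g => g ∈ HH K L).image (· * g₁) := by
    ext g
    simp only [Finset.mem_filter, Finset.mem_univ, true_and, Finset.mem_image]
    constructor
    · intro hg
      have h3 := (over_relNorm (K := K) hp (hn g)).2
      rw [hg] at h3
      obtain ⟨h, hh, hh'⟩ := trans_HH hG hQp (prime_of_norm hp (hn g)) hQP h3
      refine ⟨h, hh, hinj ?_⟩
      simp only
      rw [mul_smul, hg₁, hh']
    · rintro ⟨h, hh, rfl⟩
      rw [mul_smul, hg₁, relNorm_HH hh]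
      exact relNorm_over hp hP' hQn hQP
  rw [h2, Finset.card_image_of_injective _ (mul_left_injective g₁), ← card_HH hG,
    Nat.card_eq_fintype_card, Fintype.card_subtype]

/-- the number of primes above, for a Galois extension of degree two -/
lemma unique_over (hG : IsGalois ℚ L) (h2 : Module.finrank K L = 2) {P : Ideal (𝓞 K)}
    {Q Q' : Ideal (𝓞 L)} (hP : P.IsMaximal) (hQ : Q.IsPrime) (hQ' : Q'.IsPrime)
    (h : Q.LiesOver P) (h' : Q'.LiesOver P) (hf : 2 ≤ Q.inertiaDeg (𝓞 K)) : Q' = Q := by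
  have hGK : IsGalois K L := IsGalois.tower_top_of_isGalois ℚ K L
  have e1 := ncard_primesOver_mul_ramificationIdxIn_mul_inertiaDegIn P (𝓞 L) Gal(L/K)
  rw [IsGalois.card_aut_eq_finrank, h2, ramificationIdxIn_eq_ramificationIdx P Q Gal(L/K),
    inertiaDegIn_eq_inertiaDeg P Q Gal(L/K)] at e1
  have h3 : (primesOver P (𝓞 L)).ncard ≤ 1 := by
    by_contra hc
    push Not at hc
    have h4 : Q.ramificationIdx (𝓞 K) ≠ 0 := by
      intro h0
      rw [h0] at e1
      simp at e1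
    have h5 : 1 ≤ Q.ramificationIdx (𝓞 K) := Nat.one_le_iff_ne_zero.2 h4
    have h6 : 2 * (1 * 2) ≤ (primesOver P (𝓞 L)).ncard *
        (Q.ramificationIdx (𝓞 K) * Q.inertiaDeg (𝓞 K)) :=
      Nat.mul_le_mul hc (Nat.mul_le_mul h5 hf)
    omega
  have hfin : (primesOver P (𝓞 L)).Finite := by
    refine Set.finite_of_ncard_ne_zero fun h0 => ?_
    rw [h0] at e1
    simp at e1
  exact (Set.ncard_le_one hfin).1 h3 Q' ⟨hQ', h'⟩ Q ⟨hQ, h⟩

end Pool.Agent.Y772.CB
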