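import Pool.Agent.Y772.CB.Sel
import Pool.Agent.Y772.CB.Clo

/-!
# Selberg orthonormality for characters induced from totally real fields of degree two and three
-/

set_option autoImplicit false

open NumberField Complex Filter Topology Ideal

namespace Pool.Agent.Y772.CB

open Pool.Agent.Y773 Pool.Agent.Y772.SL

/-- a quadratic field is Galois -/
lemma galois_of_two (K : Type) [Field K] [NumberField K] (h : Module.finrank ℚ K = 2) :
    IsGalois ℚ K := by
  have h1 : Algebra.IsQuadraticExtension ℚ K := ⟨h⟩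
  infer_instance

/-- **Selberg orthonormality**, all totally real fields of degree two and three -/
theorem sel_tot {K : Type} [Field K] [NumberField K] [IsTotallyReal K]
    (hd : Module.finrank ℚ K = 2 ∨ Module.finrank ℚ K = 3)
    {𝔣 : Ideal (𝓞 K)} {ψ : Ideal (𝓞 K) →*₀ ℂ} (hψ : IsPrimChar K 𝔣 ψ) {p : ℕ} (hp : p.Prime)
    (hpf : ¬ p ∣ absNorm 𝔣) {P P' : Ideal (𝓞 K)} (hP : absNorm P = p) (hP' : absNorm P' = p)
    (hne : ψ P ≠ ψ P') : SelData (cc ψ) ∧ W388.SelE (cc ψ) := by
  have key : SelData (cc ψ) := by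
    rcases hd with h2 | h3
    · exact sel_prime (galois_of_two K h2) (by rw [h2]; exact Nat.prime_two) hψ hp hpf hP hP' hne
    · by_cases hG : IsGalois ℚ K
      · exact sel_prime hG (by rw [h3]; exact Nat.prime_three) hψ hp hpf hP hP' hne
      · obtain ⟨L, _, _, _, hGL, h2, hreal⟩ := exists_closure K h3 hG
        have hL : IsTotallyReal L := hreal inferInstance
        exact sel_cubic (L := L) hGL h2 h3 hG hψ hp hpf hP hP' hne
  refine ⟨key, ?_⟩
  obtain ⟨A, hA, hDK⟩ := DK.t_dirK K
  exact key.selE (hDK ψ (prim_norm_le hψ)).2.2.2.2.2.2.1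

end Pool.Agent.Y772.CB
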