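import Pool.Agent.Y772.SL.Orb

/-!
# A cubic field in a Galois extension of degree six: ideals
-/

set_option autoImplicit false

open NumberField Complex Filter Topology Ideal
open scoped Pointwise

namespace Pool.Agent.Y772.CB

open Pool.Agent.Y773 Pool.Agent.Y772.SK Pool.Agent.Y772.SL Pool.Agent.Y772.NZ

variable {K L : Type} [Field K] [NumberField K] [Field L] [NumberField L] [Algebra K L]

example : IsScalarTower ℚ K L := inferInstance

variable (K L) in
/-- the image of `K` in `L` -/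
noncomputable def FF : IntermediateField ℚ L := (IsScalarTower.toAlgHom ℚ K L).fieldRange

variable (K L) in
/-- the automorphisms of `L` which fix `K` -/
noncomputable def HH : Subgroup Gal(L/ℚ) := (FF K L).fixingSubgroup

lemma mem_HH {g : Gal(L/ℚ)} : g ∈ HH K L ↔ ∀ x : K, g (algebraMap K L x) = algebraMap K L x := by
  unfold HH
  rw [IntermediateField.mem_fixingSubgroup_iff]
  constructor
  · intro h x
    exact h _ ⟨x, rfl⟩
  · rintro h _ ⟨x, rfl⟩
    exact h x

/-- an automorphism fixing `K` as an automorphism over `K` -/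
noncomputable def toK {g : Gal(L/ℚ)} (h : g ∈ HH K L) : Gal(L/K) :=
  AlgEquiv.ofRingEquiv (f := g.toRingEquiv) (mem_HH.1 h)

lemma toK_apply {g : Gal(L/ℚ)} (h : g ∈ HH K L) (x : L) : toK h x = g x := rfl

lemma smul_toK {g : Gal(L/ℚ)} (h : g ∈ HH K L) (I : Ideal (𝓞 L)) : toK h • I = g • I := by
  rw [Ideal.pointwise_smul_def, Ideal.pointwise_smul_def]
  congr 1

lemma relNorm_HH {g : Gal(L/ℚ)} (h : g ∈ HH K L) (I : Ideal (𝓞 L)) :
    relNorm (𝓞 K) (g • I) = relNorm (𝓞 K) I := by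
  rw [← smul_toK h]
  have hc : SMulCommClass Gal(L/K) (𝓞 K) (𝓞 L) := ⟨fun t a x => by
    rw [Algebra.smul_def, Algebra.smul_def, MulSemiringAction.smul_mul]
    congr 1
    apply RingOfIntegers.ext
    exact t.commutes (a : K)⟩
  exact relNorm_smul (𝓞 K) (toK h) I

/-- an automorphism over `K` as an automorphism -/
noncomputable def ofK (t : Gal(L/K)) : Gal(L/ℚ) := t.restrictScalars ℚ

lemma ofK_mem (t : Gal(L/K)) : ofK t ∈ HH K L := mem_HH.2 fun x => t.commutes x

lemma smul_ofK (t : Gal(L/K)) (I : Ideal (𝓞 L)) : ofK t • I = t • I := by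
  rw [Ideal.pointwise_smul_def, Ideal.pointwise_smul_def]
  congr 1

lemma finrank_FF : Module.finrank ℚ (FF K L) = Module.finrank ℚ K :=
  (AlgEquiv.ofInjectiveField (IsScalarTower.toAlgHom ℚ K L)).toLinearEquiv.finrank_eq.symm

lemma card_HH (hG : IsGalois ℚ L) : Nat.card (HH K L) = Module.finrank K L := by
  unfold HH
  rw [IsGalois.card_fixingSubgroup_eq_finrank]
  have h1 := Module.finrank_mul_finrank ℚ (FF K L) L
  have h2 := Module.finrank_mul_finrank ℚ K L
  rw [finrank_FF, ← h2] at h1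
  exact Nat.eq_of_mul_eq_mul_left Module.finrank_pos h1

lemma not_normal (hG : IsGalois ℚ L) (hK : ¬ IsGalois ℚ K) : ¬ (HH K L).Normal := by
  intro hN
  apply hK
  have h1 : IsGalois ℚ (IntermediateField.fixedField (HH K L)) := IsGalois.of_fixedField_normal_subgroup _
  have h2 : IntermediateField.fixedField (HH K L) = FF K L := by
    unfold HH
    exact IsGalois.fixedField_fixingSubgroup _
  rw [h2] at h1
  have e : FF K L ≃ₐ[ℚ] K := (AlgEquiv.ofInjectiveField (IsScalarTower.toAlgHom ℚ K L)).symm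
  exact IsGalois.of_algEquiv e

/-- primes above -/
lemma exists_over {p : ℕ} (hp : p.Prime) {P : Ideal (𝓞 K)} (hP : absNorm P = p) :
    ∃ Q : Ideal (𝓞 L), Q.IsPrime ∧ Q.LiesOver P ∧ Q.LiesOver (span {(p : ℤ)}) := by
  have h1 := prime_of_norm hp hP
  have h2 := liesOver_of_norm hp hP
  have h3 : P.IsMaximal := h1.isMaximal (ne_bot_of_norm hp hP)
  obtain ⟨Q, hQ, hQP⟩ := exists_maximal_ideal_liesOver_of_isIntegral (S := 𝓞 L) P
  exact ⟨Q, hQ.isPrime, hQP, LiesOver.trans Q P _⟩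

lemma relNorm_over {p : ℕ} (hp : p.Prime) {P : Ideal (𝓞 K)} (hP : absNorm P = p)
    {Q : Ideal (𝓞 L)} (hQ : absNorm Q = p) (hQP : Q.LiesOver P) : relNorm (𝓞 K) Q = P := by
  have h1 := prime_of_norm hp hP
  have h3 : P.IsMaximal := h1.isMaximal (ne_bot_of_norm hp hP)
  have h4 : Q.IsMaximal := (prime_of_norm hp hQ).isMaximal (ne_bot_of_norm hp hQ)
  have h5 := relNorm_eq_pow_of_isMaximal Q P
  have h6 := congrArg absNorm h5
  rw [absNorm_relNorm, map_pow, hP, hQ] at h6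
  have h7 : Q.inertiaDeg (𝓞 K) = 1 := by
    have : p ^ 1 = p ^ Q.inertiaDeg (𝓞 K) := by rw [pow_one]; exact h6
    exact (Nat.pow_right_injective hp.two_le this).symm
  rw [h5, h7, pow_one]

lemma over_relNorm {p : ℕ} (hp : p.Prime) {Q : Ideal (𝓞 L)} (hQ : absNorm Q = p) :
    absNorm (relNorm (𝓞 K) Q) = p ∧ Q.LiesOver (relNorm (𝓞 K) Q) := by
  have h1 : absNorm (relNorm (𝓞 K) Q) = p := by rw [absNorm_relNorm, hQ]
  refine ⟨h1, ⟨?_⟩⟩
  have h2 := prime_of_norm hp h1
  have h3 : (relNorm (𝓞 K) Q).IsMaximal := h2.isMaximal (ne_bot_of_norm hp h1)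
  have hQp := prime_of_norm hp hQ
  refine h3.eq_of_le ?_ (relNorm_le_comap (𝓞 K) Q)
  exact (inferInstance : (Q.under (𝓞 K)).IsPrime).ne_top

/-- transitivity over `K` -/
lemma trans_HH (hG : IsGalois ℚ L) {P : Ideal (𝓞 K)} {Q Q' : Ideal (𝓞 L)} (hQ : Q.IsPrime)
    (hQ' : Q'.IsPrime) (h : Q.LiesOver P) (h' : Q'.LiesOver P) : ∃ g ∈ HH K L, g • Q = Q' := by
  have : IsGalois K L := IsGalois.tower_top_of_isGalois ℚ K L
  obtain ⟨t, ht⟩ := exists_smul_eq_of_isGaloisGroup P Q Q' (Gal(L/K))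
  exact ⟨ofK t, ofK_mem t, by rw [smul_ofK, ht]⟩

end Pool.Agent.Y772.CB
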