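import Pool.Agent.Y772.CB.Chr

/-!
# Selberg orthonormality for characters induced from a cubic field which is not Galois
-/

set_option autoImplicit false

open NumberField Complex Filter Topology Ideal
open scoped ArithmeticFunction.vonMangoldt Pointwise

namespace Pool.Agent.Y772.CB

open Pool.Agent.Y773 Pool.Agent.Y772.SK Pool.Agent.Y772.SL Pool.Agent.Y772.NZ

variable {K L : Type} [Field K] [NumberField K] [Field L] [NumberField L] [Algebra K L]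

/-- the value at a prime over which `L` has a prime of degree one -/
lemma split_value (hG : IsGalois ℚ L) (h2 : Module.finrank K L = 2)
    (h3 : Module.finrank ℚ K = 3) {η : Ideal (𝓞 K) →*₀ ℂ} {q : ℕ} (hq : q.Prime)
    (hun : ∀ P : Ideal (𝓞 K), absNorm P = q → ‖η P‖ = 1) {Q₀ : Ideal (𝓞 L)}
    (hQ₀ : absNorm Q₀ = q) (hd : ¬ Q₀ ∣ differentIdeal ℤ (𝓞 L)) [DecidablePred (· ∉ HH K L)] :
    ‖∑ᶠ P ∈ {P : Ideal (𝓞 K) | absNorm P = q}, η P‖ ^ 2 = 3 +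
      (1 / 4) * ∑ σ ∈ (Finset.univ : Finset Gal(L/ℚ)).filter (· ∉ HH K L),
        (∑ᶠ Q ∈ {Q : Ideal (𝓞 L) | absNorm Q = q}, rs σ.toRingEquiv (up L η) Q).re ∧
    (∑ᶠ P ∈ {P : Ideal (𝓞 K) | absNorm P = q}, (1 : ℂ)) = 3 := by
  classical
  have hG6 : Nat.card Gal(L/ℚ) = 6 := by
    rw [IsGalois.card_aut_eq_finrank, ← Module.finrank_mul_finrank ℚ K L, h2, h3]
  have hn : ∀ g : Gal(L/ℚ), absNorm (g • Q₀) = q := fun g => by rw [absNorm_smul', hQ₀]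
  have hnK : ∀ g : Gal(L/ℚ), absNorm (relNorm (𝓞 K) (g • Q₀)) = q := fun g =>
    (over_relNorm hq (hn g)).1
  constructor
  · have e1 := fiber_sum (K := K) hG hq hQ₀ hd (fun P => η P)
    rw [h2] at e1
    have e2 := sq_sum_group fun g : Gal(L/ℚ) => up L η (g • Q₀)
    have e3 : ∑ g : Gal(L/ℚ), up L η (g • Q₀) =
        2 * ∑ᶠ P ∈ {P : Ideal (𝓞 K) | absNorm P = q}, η P := by
      simp only [up_apply]
      exact_mod_cast e1
    rw [e3, norm_mul] at e2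
    have e4 : ‖(2 : ℂ)‖ = 2 := by simp
    rw [e4] at e2
    have e5 : ∀ σ : Gal(L/ℚ), ∑ g : Gal(L/ℚ), up L η (g • Q₀) *
        (starRingEnd ℂ) (up L η ((σ * g) • Q₀)) =
        ∑ᶠ Q ∈ {Q : Ideal (𝓞 L) | absNorm Q = q}, rs σ.toRingEquiv (up L η) Q := by
      intro σ
      rw [sum_orbit hG hq hQ₀ hd]
      refine Finset.sum_congr rfl fun g _ => ?_
      rw [rs_apply, smul_smul]
    have e6 : ∀ σ : Gal(L/ℚ), σ ∈ HH K L → ∑ g : Gal(L/ℚ), up L η (g • Q₀) *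
        (starRingEnd ℂ) (up L η ((σ * g) • Q₀)) = 6 := by
      intro σ hσ
      have e60 : ∀ g : Gal(L/ℚ), up L η (g • Q₀) *
          (starRingEnd ℂ) (up L η ((σ * g) • Q₀)) = 1 := by
        intro g
        rw [mul_smul, up_apply, up_apply, relNorm_HH hσ, Complex.mul_conj,
          Complex.normSq_eq_norm_sq, hun _ (hnK g)]
        norm_num
      rw [Finset.sum_congr rfl fun g _ => e60 g, Finset.sum_const, Finset.card_univ,
        ← Nat.card_eq_fintype_card, hG6]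
      simp
    have e7 := congrArg Complex.re e2
    rw [ofReal_re, re_sum, ← Finset.sum_filter_add_sum_filter_not _ (fun σ => σ ∈ HH K L)] at e7
    have e8 : ∑ σ ∈ (Finset.univ : Finset Gal(L/ℚ)) with σ ∈ HH K L,
        (∑ g : Gal(L/ℚ), up L η (g • Q₀) * (starRingEnd ℂ) (up L η ((σ * g) • Q₀))).re = 12 := by
      rw [Finset.sum_congr rfl fun σ hσ => by rw [e6 σ (Finset.mem_filter.1 hσ).2],
        Finset.sum_const, ← Fintype.card_subtype, ← Nat.card_eq_fintype_card, card_HH hG, h2]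
      norm_num
    rw [e8] at e7
    have e9 : ∑ σ ∈ (Finset.univ : Finset Gal(L/ℚ)) with σ ∉ HH K L,
        (∑ g : Gal(L/ℚ), up L η (g • Q₀) * (starRingEnd ℂ) (up L η ((σ * g) • Q₀))).re =
        ∑ σ ∈ (Finset.univ : Finset Gal(L/ℚ)).filter (· ∉ HH K L),
          (∑ᶠ Q ∈ {Q : Ideal (𝓞 L) | absNorm Q = q}, rs σ.toRingEquiv (up L η) Q).re := by
      refine Finset.sum_congr (by ext; simp) fun σ _ => ?_
      rw [e5]
    rw [e9] at e7
    have e10 : (2 * ‖∑ᶠ P ∈ {P : Ideal (𝓞 K) | absNorm P = q}, η P‖) ^ 2 =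
        4 * ‖∑ᶠ P ∈ {P : Ideal (𝓞 K) | absNorm P = q}, η P‖ ^ 2 := by ring
    rw [e10] at e7
    linarith
  · have e1 := fiber_sum (K := K) hG hq hQ₀ hd (fun _ => (1 : ℂ))
    rw [h2, Finset.sum_const, Finset.card_univ, ← Nat.card_eq_fintype_card, hG6] at e1
    have e2 : (6 : ℂ) = 2 * ∑ᶠ P ∈ {P : Ideal (𝓞 K) | absNorm P = q}, (1 : ℂ) := by
      simpa using e1
    linear_combination (-1 / 2 : ℂ) * e2

/-- the value at the other primes -/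
lemma nonsplit_value {η : Ideal (𝓞 K) →*₀ ℂ} {q : ℕ}
    (hun : ∀ P : Ideal (𝓞 K), absNorm P = q → ‖η P‖ = 1)
    (h : ∀ P₁ P₂ : Ideal (𝓞 K), absNorm P₁ = q → absNorm P₂ = q → P₁ = P₂) :
    ‖∑ᶠ P ∈ {P : Ideal (𝓞 K) | absNorm P = q}, η P‖ ^ 2 =
      (∑ᶠ P ∈ {P : Ideal (𝓞 K) | absNorm P = q}, (1 : ℂ)).re := by
  by_cases hP : ∃ P : Ideal (𝓞 K), absNorm P = q
  · obtain ⟨P, hP⟩ := hP
    have h1 : {P : Ideal (𝓞 K) | absNorm P = q} = {P} := by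
      ext R
      constructor
      · intro hR
        exact h R P hR hP
      · rintro rfl
        exact hP
    rw [h1, finsum_mem_singleton, finsum_mem_singleton, hun P hP]
    norm_num
  · have h1 : {P : Ideal (𝓞 K) | absNorm P = q} = ∅ := by
      ext R
      simp only [Set.mem_ofPred_eq, Set.mem_empty_iff_false, iff_false]
      exact fun hR => hP ⟨R, hR⟩
    rw [h1, finsum_mem_empty, finsum_mem_empty]
    simp

/-- **the criterion**, with the analytic input as a hypothesis -/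
theorem sel_cubic_of (hD : StDirK) (hG : IsGalois ℚ L) (h2 : Module.finrank K L = 2)
    (h3 : Module.finrank ℚ K = 3) (hK : ¬ IsGalois ℚ K) {η : Ideal (𝓞 K) →*₀ ℂ}
    (hη : ∀ 𝔞, ‖η 𝔞‖ ≤ 1) {𝔪 : Ideal (𝓞 K)} (hm0 : 𝔪 ≠ ⊥)
    (hm1 : ∀ 𝔞, IsCoprime 𝔞 𝔪 → ‖η 𝔞‖ = 1)
    (hcont : ∀ σ : Gal(L/ℚ), σ ∉ HH K L → ∃ g : ℂ → ℂ, AnalyticAt ℂ g 1 ∧ g 1 ≠ 0 ∧
      ∀ᶠ s in 𝓝 (1 : ℂ), 1 < s.re → LI (rs σ.toRingEquiv (up L η)) s = g s) :
    SelData (cc η) := by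
  classical
  obtain ⟨A, hA, hDK⟩ := hD K
  obtain ⟨A', hA', hDL⟩ := hD L
  have hb := fun (φ : Ideal (𝓞 K) →*₀ ℂ) (hφ : ∀ 𝔞, ‖φ 𝔞‖ ≤ 1) => (hDK φ hφ).2.2.2.2.2.2.1
  have hv := fun (φ : Ideal (𝓞 K) →*₀ ℂ) (hφ : ∀ 𝔞, ‖φ 𝔞‖ ≤ 1) => (hDK φ hφ).2.2.2.2.2.2.2.1
  have hb' := fun (φ : Ideal (𝓞 L) →*₀ ℂ) (hφ : ∀ 𝔞, ‖φ 𝔞‖ ≤ 1) => (hDL φ hφ).2.2.2.2.2.2.1
  have hv' := fun (φ : Ideal (𝓞 L) →*₀ ℂ) (hφ : ∀ 𝔞, ‖φ 𝔞‖ ≤ 1) => (hDL φ hφ).2.2.2.2.2.2.2.1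
  have hup : ∀ 𝔄, ‖up L η 𝔄‖ ≤ 1 := fun 𝔄 => hη _
  have hbad := finite_bad' K hm0
  have hbad' := finite_bad L
  set n := Module.finrank ℚ K
  set n' := Module.finrank ℚ L
  have hc1 : ∀ k, |(cc (one K) k).re| ≤ n := fun k =>
    (abs_re_le_norm _).trans (hb _ (one_norm K) k)
  have hc2 : ∀ (σ : Gal(L/ℚ)) k, |(1 / 4) * (cc (rs σ.toRingEquiv (up L η)) k).re| ≤ n' := by
    intro σ k
    have h1 := (abs_re_le_norm _).trans (hb' _ (rs_norm hup σ) k)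
    rw [abs_mul, abs_of_nonneg (by norm_num : (0 : ℝ) ≤ 1 / 4)]
    have h2 := abs_nonneg ((cc (rs σ.toRingEquiv (up L η)) k).re)
    linarith
  -- the partial sums
  have hpart : ∀ s : Finset Gal(L/ℚ), (∀ σ ∈ s, σ ∉ HH K L) →
      (∀ k, |(cc (one K) k).re + ∑ σ ∈ s, (1 / 4) * (cc (rs σ.toRingEquiv (up L η)) k).re| ≤
        n + s.card * n') ∧
      Tendsto (av fun k => (cc (one K) k).re +
        ∑ σ ∈ s, (1 / 4) * (cc (rs σ.toRingEquiv (up L η)) k).re) (𝓝[>] 0) (𝓝 1) := by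
    intro s
    induction s using Finset.induction_on with
    | empty =>
      intro _
      simp only [Finset.sum_empty, add_zero, Finset.card_empty, Nat.cast_zero, zero_mul]
      exact ⟨hc1, lim_one hD K⟩
    | insert σ s hσ ih =>
      intro h1
      obtain ⟨i1, i2⟩ := ih fun τ hτ => h1 τ (Finset.mem_insert_of_mem hτ)
      obtain ⟨g, hg, hg0, hgs⟩ := hcont σ (h1 σ (Finset.mem_insert_self _ _))
      have h3' := (lim_av hD _ (rs_norm hup σ) hg hg0 hgs).const_mul (1 / 4)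
      rw [mul_zero] at h3'
      have h3 : Tendsto (av fun k => (1 / 4) * (cc (rs σ.toRingEquiv (up L η)) k).re)
          (𝓝[>] 0) (𝓝 0) := h3'.congr fun x => (av_mul _ _ _).symm
      have he : ∀ k, (cc (one K) k).re +
          ∑ σ ∈ insert σ s, (1 / 4) * (cc (rs σ.toRingEquiv (up L η)) k).re =
          ((cc (one K) k).re + ∑ σ ∈ s, (1 / 4) * (cc (rs σ.toRingEquiv (up L η)) k).re) +
            (1 / 4) * (cc (rs σ.toRingEquiv (up L η)) k).re := by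
        intro k
        rw [Finset.sum_insert hσ]
        ring
      refine ⟨fun k => ?_, ?_⟩
      · rw [he, Finset.card_insert_of_notMem hσ]
        push_cast
        have h5 := (abs_add_le ((cc (one K) k).re +
          ∑ σ ∈ s, (1 / 4) * (cc (rs σ.toRingEquiv (up L η)) k).re)
          ((1 / 4) * (cc (rs σ.toRingEquiv (up L η)) k).re)).trans (add_le_add (i1 k) (hc2 σ k))
        linarith
      · have h4 := i2.add h3
        rw [add_zero] at h4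
        refine h4.congr' ?_
        filter_upwards [self_mem_nhdsWithin] with x hx
        rw [← av_add i1 (hc2 σ) hx]
        simp only [he]
  obtain ⟨p1, p2⟩ := hpart ((Finset.univ : Finset Gal(L/ℚ)).filter (· ∉ HH K L))
    fun σ hσ => (Finset.mem_filter.1 hσ).2
  refine ⟨_, _, hbad.toFinset ∪ hbad'.toFinset, p1, ?_, p2⟩
  intro q hq hS
  rw [Finset.mem_union, not_or, Set.Finite.mem_toFinset, Set.Finite.mem_toFinset] at hS
  have hun : ∀ P : Ideal (𝓞 K), absNorm P = q → ‖η P‖ = 1 := fun P hP =>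
    norm_one_of hm1 hq hP fun h => hS.1 ⟨P, hP, h⟩
  have o1 : cc (one K) q = ∑ᶠ P ∈ {P : Ideal (𝓞 K) | absNorm P = q}, (1 : ℂ) := by
    rw [hv (one K) (one_norm K) q hq]
    exact finsum_mem_congr rfl fun P hP => one_ne K (ne_bot_of_norm hq hP)
  rw [hv η hη q hq, o1]
  by_cases hT : q ∈ TT L
  · obtain ⟨-, Q₀, hQ₀⟩ := hT
    obtain ⟨v1, v2⟩ := split_value hG h2 h3 hq hun hQ₀ fun h => hS.2 ⟨Q₀, hQ₀, h⟩
    rw [v1, v2]
    have v3 : ∀ σ : Gal(L/ℚ), cc (rs σ.toRingEquiv (up L η)) q =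
        ∑ᶠ Q ∈ {Q : Ideal (𝓞 L) | absNorm Q = q}, rs σ.toRingEquiv (up L η) Q := fun σ =>
      hv' _ (rs_norm hup σ) q hq
    simp only [v3]
    rw [Finset.mul_sum]
    norm_num
  · rw [nonsplit_value hun]
    · rw [Finset.sum_eq_zero, add_zero]
      intro σ _
      rw [cc_zero_of_not hq (hv' _ (rs_norm hup σ) q hq) hT, zero_re, mul_zero]
    · intro P₁ P₂ hP₁ hP₂
      by_contra hne
      obtain ⟨Q, hQ⟩ := two_primes hG h2 h3 hK hq hP₁ hP₂ hne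
      exact hT ⟨hq, Q, hQ⟩

/-- non-triviality -/
lemma nontriv (hG : IsGalois ℚ L) (h2 : Module.finrank K L = 2)
    (h3 : Module.finrank ℚ K = 3) (hK : ¬ IsGalois ℚ K) {M : ℕ} {η : Ideal (𝓞 K) →*₀ ℂ}
    (hu : ∀ 𝔄 : Ideal (𝓞 L), IsCoprime 𝔄 (Ideal.span {(M : 𝓞 L)}) → ‖up L η 𝔄‖ = 1)
    {p : ℕ} (hp : p.Prime) (hpM : ¬ p ∣ M) {P P' : Ideal (𝓞 K)} (hP : absNorm P = p)
    (hP' : absNorm P' = p) (hne : η P ≠ η P') {σ : Gal(L/ℚ)} (hσ : σ ∉ HH K L) :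
    ∃ 𝔄, IsCoprime 𝔄 (Ideal.span {(M : 𝓞 L)}) ∧ rs σ.toRingEquiv (up L η) 𝔄 ≠ 1 := by
  by_contra hcon
  push Not at hcon
  have hst : ∀ (g : Gal(L/ℚ)) (𝔄 : Ideal (𝓞 L)), IsCoprime 𝔄 (Ideal.span {(M : 𝓞 L)}) →
      IsCoprime (g • 𝔄) (Ideal.span {(M : 𝓞 L)}) := by
    intro g 𝔄 h
    have := smul_isCoprime g h
    rwa [smul_span_nat] at this
  have h1 : ∀ 𝔄, IsCoprime 𝔄 (Ideal.span {(M : 𝓞 L)}) → up L η (σ • 𝔄) = up L η 𝔄 := by
    intro 𝔄 h𝔄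
    have h4 := hcon 𝔄 h𝔄
    rw [rs_apply] at h4
    have h5 : (starRingEnd ℂ) (up L η (σ • 𝔄)) * up L η (σ • 𝔄) = 1 := by
      rw [mul_comm, Complex.mul_conj, Complex.normSq_eq_norm_sq, hu _ (hst σ 𝔄 h𝔄)]
      simp
    calc up L η (σ • 𝔄) = (up L η 𝔄 * (starRingEnd ℂ) (up L η (σ • 𝔄))) * up L η (σ • 𝔄) := by
          rw [h4, one_mul]
      _ = up L η 𝔄 := by rw [mul_assoc, h5, mul_one]
  let N : Subgroup Gal(L/ℚ) :=
    { carrier := {g | ∀ 𝔄, IsCoprime 𝔄 (Ideal.span {(M : 𝓞 L)}) → up L η (g • 𝔄) = up L η 𝔄}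
      mul_mem' := fun {a b} ha hb 𝔄 h𝔄 => by rw [mul_smul, ha _ (hst b 𝔄 h𝔄), hb 𝔄 h𝔄]
      one_mem' := fun 𝔄 _ => by rw [one_smul]
      inv_mem' := fun {a} ha 𝔄 h𝔄 => by
        have := ha _ (hst a⁻¹ 𝔄 h𝔄)
        rw [smul_inv_smul] at this
        exact this.symm }
  have hle : HH K L ≤ N := fun g hg 𝔄 _ => by rw [up_apply, up_apply, relNorm_HH hg]
  have hneN : HH K L ≠ N := by
    intro h
    apply hσ
    rw [h]
    exact h1
  have htop := eq_top_of_lt hG h2 h3 hle hneN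
  have hPP' : P ≠ P' := by
    rintro rfl
    exact hne rfl
  obtain ⟨R, hR⟩ := two_primes hG h2 h3 hK hp hP hP' hPP'
  obtain ⟨Q, hQp, hQP, hQl⟩ := exists_over (L := L) hp hP
  obtain ⟨Q', hQp', hQP', hQl'⟩ := exists_over (L := L) hp hP'
  have hQn : absNorm Q = p := by
    have : Q ∈ (span {(p : ℤ)}).primesOver (𝓞 L) := ⟨hQp, hQl⟩
    rw [← primesOver_eq hG hp hR] at this
    exact this
  have hQn' : absNorm Q' = p := by
    have : Q' ∈ (span {(p : ℤ)}).primesOver (𝓞 L) := ⟨hQp', hQl'⟩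
    rw [← primesOver_eq hG hp hR] at this
    exact this
  obtain ⟨γ, hγ⟩ := exists_smul_eq_of_isGaloisGroup (span {(p : ℤ)}) Q Q' (Gal(L/ℚ))
  have h4 : γ ∈ N := by rw [htop]; exact Subgroup.mem_top γ
  have hQc : IsCoprime Q (Ideal.span {(M : 𝓞 L)}) := by
    rw [TW.coprime_q, hQn]
    exact (Nat.Prime.coprime_iff_not_dvd hp).2 hpM
  have h5 := h4 Q hQc
  rw [hγ, up_apply, up_apply, relNorm_over hp hP hQn hQP, relNorm_over hp hP' hQn' hQP'] at h5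
  exact hne h5.symm

/-- **Selberg orthonormality**, non-Galois totally real cubic fields (the Galois closure given) -/
theorem sel_cubic [IsTotallyReal K] [IsTotallyReal L] (hG : IsGalois ℚ L)
    (h2 : Module.finrank K L = 2) (h3 : Module.finrank ℚ K = 3) (hK : ¬ IsGalois ℚ K)
    {𝔣 : Ideal (𝓞 K)} {ψ : Ideal (𝓞 K) →*₀ ℂ} (hψ : IsPrimChar K 𝔣 ψ) {p : ℕ} (hp : p.Prime)
    (hpf : ¬ p ∣ absNorm 𝔣) {P P' : Ideal (𝓞 K)} (hP : absNorm P = p) (hP' : absNorm P' = p)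
    (hne : ψ P ≠ ψ P') : SelData (cc ψ) := by
  classical
  set M : ℕ := (p + 1) * absNorm 𝔣 with hM
  have hN0 : absNorm 𝔣 ≠ 0 := by rw [Ne, absNorm_eq_zero_iff]; exact hψ.ne_bot
  have hM2 : 2 ≤ M := by
    have := hp.two_le
    have := Nat.pos_of_ne_zero hN0
    nlinarith
  have hpM : ¬ p ∣ M := by
    rw [hM, hp.dvd_mul, not_or]
    refine ⟨fun h => ?_, hpf⟩
    have := (Nat.dvd_add_right (dvd_refl p)).1 h
    exact hp.one_lt.ne' (Nat.dvd_one.1 this)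
  have h𝔪0 : Ideal.span {(M : 𝓞 K)} ≠ ⊥ := by
    rw [Ne, Ideal.span_singleton_eq_bot, Nat.cast_eq_zero]
    omega
  have h𝔪1 := span_ne_top (K := K) hM2
  have hle : Ideal.span {(M : 𝓞 K)} ≤ 𝔣 := by
    rw [Ideal.span_singleton_le_iff_mem, hM]
    push_cast
    exact Ideal.mul_mem_left _ _ (absNorm_mem 𝔣)
  obtain ⟨e, he⟩ := res_mod hψ h𝔪0 h𝔪1 hle
  set η := res (Ideal.span {(M : 𝓞 K)}) ψ with hη
  obtain ⟨e', he'⟩ := up_mod (L := L) hG hM2 he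
  have hne' : η P ≠ η P' := by
    rw [hη, res_of (coprime_of_norm hp hP hpM), res_of (coprime_of_norm hp hP' hpM)]
    exact hne
  have hdata : SelData (cc η) := by
    refine sel_cubic_of (L := L) DK.t_dirK hG h2 h3 hK he.norm_le_one h𝔪0
      (fun 𝔞 h => he.norm_eq_one h) fun σ hσ => ?_
    obtain ⟨e'', he''⟩ := rs_mod he' σ
    exact reg_one he'' (nontriv hG h2 h3 hK (fun 𝔄 h => he'.norm_eq_one h) hp hpM hP hP' hne' hσ)
  refine hdata.congr M.primeFactors fun q hq hqM => ?_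
  have hqM' : ¬ q ∣ M := fun h => hqM (Nat.mem_primeFactors.2 ⟨hq, h, by omega⟩)
  obtain ⟨A, hA, hDK⟩ := DK.t_dirK K
  rw [(hDK ψ (prim_norm_le hψ)).2.2.2.2.2.2.2.1 q hq,
    (hDK η he.norm_le_one).2.2.2.2.2.2.2.1 q hq]
  refine finsum_mem_congr rfl fun Q hQ => ?_
  rw [hη, res_of (coprime_of_norm hq hQ hqM')]

end Pool.Agent.Y772.CB
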