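import Pool.Agent.Y772.CB.Fib

/-!
# A cubic field which is not Galois: two primes of degree one over the same rational prime
-/

set_option autoImplicit false

open NumberField Complex Filter Topology Ideal
open scoped Pointwise

namespace Pool.Agent.Y772.CB

open Pool.Agent.Y773 Pool.Agent.Y772.SK Pool.Agent.Y772.SL Pool.Agent.Y772.NZ

variable {K L : Type} [Field K] [NumberField K] [Field L] [NumberField L] [Algebra K L]

/-- a subgroup which contains the automorphisms over `K` and something else is everything -/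
lemma eq_top_of_lt (hG : IsGalois ℚ L) (h2 : Module.finrank K L = 2)
    (h3 : Module.finrank ℚ K = 3) {N : Subgroup Gal(L/ℚ)} (h : HH K L ≤ N) (hne : HH K L ≠ N) :
    N = ⊤ := by
  classical
  have hG6 : Nat.card Gal(L/ℚ) = 6 := by
    rw [IsGalois.card_aut_eq_finrank, ← Module.finrank_mul_finrank ℚ K L, h2, h3]
  have hH2 : Nat.card (HH K L) = 2 := by rw [card_HH hG, h2]
  have hd1 : Nat.card (HH K L) ∣ Nat.card N := Subgroup.card_dvd_of_le h
  have hd2 : Nat.card N ∣ Nat.card Gal(L/ℚ) := Subgroup.card_subgroup_dvd_card N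
  rw [hH2] at hd1
  rw [hG6] at hd2
  have hlt : Nat.card (HH K L) ≠ Nat.card N := fun he =>
    hne (Subgroup.eq_of_le_of_card_ge h he.ge)
  rw [hH2] at hlt
  have hle : Nat.card N ≤ 6 := Nat.le_of_dvd (by norm_num) hd2
  have h6 : Nat.card N = 6 := by
    interval_cases Nat.card N <;> omega
  exact Subgroup.eq_top_of_card_eq N (by rw [h6, hG6])

lemma smul_mem_primesOver {p : ℕ} {Q : Ideal (𝓞 L)} (g : Gal(L/ℚ))
    (h : Q ∈ (span {(p : ℤ)}).primesOver (𝓞 L)) : g • Q ∈ (span {(p : ℤ)}).primesOver (𝓞 L) := by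
  obtain ⟨h1, h2⟩ := h
  exact ⟨inferInstance, inferInstance⟩

theorem two_primes (hG : IsGalois ℚ L) (h2 : Module.finrank K L = 2)
    (h3 : Module.finrank ℚ K = 3) (hK : ¬ IsGalois ℚ K) {p : ℕ} (hp : p.Prime)
    {P₁ P₂ : Ideal (𝓞 K)} (hP₁ : absNorm P₁ = p) (hP₂ : absNorm P₂ = p) (hne : P₁ ≠ P₂) :
    ∃ Q : Ideal (𝓞 L), absNorm Q = p := by
  classical
  have hfact : Fact p.Prime := ⟨hp⟩
  by_contra hno
  push Not at hno
  have hmax : (span {(p : ℤ)}).IsMaximal := Int.ideal_span_isMaximal_of_prime p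
  obtain ⟨Q₁, hQ₁p, hQ₁P, hQ₁l⟩ := exists_over (L := L) hp hP₁
  obtain ⟨Q₂, hQ₂p, hQ₂P, hQ₂l⟩ := exists_over (L := L) hp hP₂
  have hP₁m : P₁.IsMaximal := (prime_of_norm hp hP₁).isMaximal (ne_bot_of_norm hp hP₁)
  have hP₂m : P₂.IsMaximal := (prime_of_norm hp hP₂).isMaximal (ne_bot_of_norm hp hP₂)
  have hP₁l := liesOver_of_norm hp hP₁
  have hP₂l := liesOver_of_norm hp hP₂
  have hQne : Q₁ ≠ Q₂ := by
    intro h
    apply hne
    rw [hQ₁P.over, hQ₂P.over, h]
  -- inertia degrees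
  have hf : ∀ Q : Ideal (𝓞 L), Q.IsPrime → Q.LiesOver (span {(p : ℤ)}) → 2 ≤ Q.inertiaDeg ℤ := by
    intro Q _ _
    have h1 : absNorm Q = p ^ Q.inertiaDeg ℤ := (pow_inertiaDeg p Q).symm
    have h4 : Q.inertiaDeg ℤ ≠ 1 := by
      intro h5
      rw [h5, pow_one] at h1
      exact hno Q h1
    have h5 : 0 < Q.inertiaDeg ℤ := inertiaDeg_pos Q ℤ
    omega
  have ht₁ := inertiaDeg_tower (R := ℤ) P₁ Q₁
  have ht₂ := inertiaDeg_tower (R := ℤ) P₂ Q₂
  rw [inertia_one hp hP₁, one_mul] at ht₁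
  rw [inertia_one hp hP₂, one_mul] at ht₂
  have hf₁ := hf Q₁ hQ₁p hQ₁l
  have hf₂ := hf Q₂ hQ₂p hQ₂l
  -- the automorphisms over `K` fix `Q₁` and `Q₂`
  have hcomm : SMulCommClass Gal(L/K) (𝓞 K) (𝓞 L) := smulComm
  have hfix : ∀ g ∈ HH K L, g • Q₁ = Q₁ ∧ g • Q₂ = Q₂ := by
    intro g hg
    constructor
    · rw [← smul_toK hg]
      exact unique_over hG h2 hP₁m hQ₁p inferInstance hQ₁P inferInstance (by omega)
    · rw [← smul_toK hg]
      exact unique_over hG h2 hP₂m hQ₂p inferInstance hQ₂P inferInstance (by omega)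
  -- the number of primes over `p`
  set S : Set (Ideal (𝓞 L)) := (span {(p : ℤ)}).primesOver (𝓞 L) with hS
  have e1 := ncard_primesOver_mul_ramificationIdxIn_mul_inertiaDegIn
    (span {(p : ℤ)}) (𝓞 L) Gal(L/ℚ)
  rw [IsGalois.card_aut_eq_finrank, ← Module.finrank_mul_finrank ℚ K L, h2, h3,
    ramificationIdxIn_eq_ramificationIdx (span {(p : ℤ)}) Q₁ Gal(L/ℚ),
    inertiaDegIn_eq_inertiaDeg (span {(p : ℤ)}) Q₁ Gal(L/ℚ), ← hS] at e1
  have hSfin : S.Finite := by
    refine Set.finite_of_ncard_ne_zero fun h0 => ?_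
    rw [h0] at e1
    simp at e1
  have hQ₁S : Q₁ ∈ S := ⟨hQ₁p, hQ₁l⟩
  have hQ₂S : Q₂ ∈ S := ⟨hQ₂p, hQ₂l⟩
  have hS3 : S.ncard ≤ 3 := by
    by_contra hc
    push Not at hc
    have h4 : Q₁.ramificationIdx ℤ ≠ 0 := by
      intro h0
      rw [h0] at e1
      simp at e1
    have h5 : 1 ≤ Q₁.ramificationIdx ℤ := Nat.one_le_iff_ne_zero.2 h4
    have h6 : 4 * (1 * 2) ≤ S.ncard * (Q₁.ramificationIdx ℤ * Q₁.inertiaDeg ℤ) :=
      Nat.mul_le_mul hc (Nat.mul_le_mul h5 hf₁)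
    omega
  -- they act trivially on `S`
  have htriv : ∀ g ∈ HH K L, ∀ Q ∈ S, g • Q = Q := by
    intro g hg Q hQ
    by_contra hgQ
    have h4 : Q ≠ Q₁ := by
      rintro rfl
      exact hgQ (hfix g hg).1
    have h5 : Q ≠ Q₂ := by
      rintro rfl
      exact hgQ (hfix g hg).2
    have h6 : g • Q ≠ Q₁ := by
      intro h7
      rw [← (hfix g hg).1] at h7
      exact h4 (smul_left_cancel g h7)
    have h7 : g • Q ≠ Q₂ := by
      intro h8
      rw [← (hfix g hg).2] at h8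
      exact h5 (smul_left_cancel g h8)
    have h8 : ({g • Q, Q, Q₁, Q₂} : Finset (Ideal (𝓞 L))).card = 4 := by
      rw [Finset.card_insert_of_notMem (by simp [hgQ, h6, h7]),
        Finset.card_insert_of_notMem (by simp [h4, h5]),
        Finset.card_insert_of_notMem (by simp [hQne]), Finset.card_singleton]
    have h9 : (({g • Q, Q, Q₁, Q₂} : Finset (Ideal (𝓞 L))) : Set (Ideal (𝓞 L))) ⊆ S := by
      intro R hR
      simp only [Finset.coe_insert, Finset.coe_singleton, Set.mem_insert_iff,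
        Set.mem_singleton_iff] at hR
      rcases hR with rfl | rfl | rfl | rfl
      · exact smul_mem_primesOver g hQ
      · exact hQ
      · exact hQ₁S
      · exact hQ₂S
    have h10 := Set.ncard_le_ncard h9 hSfin
    rw [Set.ncard_coe_finset, h8] at h10
    omega
  -- the kernel
  let N : Subgroup Gal(L/ℚ) :=
    { carrier := {g | ∀ Q ∈ S, g • Q = Q}
      mul_mem' := fun {a b} ha hb Q hQ => by rw [mul_smul, hb Q hQ, ha Q hQ]
      one_mem' := fun Q _ => one_smul _ Q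
      inv_mem' := fun {a} ha Q hQ => by rw [inv_smul_eq_iff, ha Q hQ] }
  have hNN : N.Normal := ⟨fun g hg k Q hQ => by
    have h4 : k⁻¹ • Q ∈ S := smul_mem_primesOver _ hQ
    have h5 := hg _ h4
    rw [mul_smul, mul_smul, h5, smul_inv_smul]⟩
  have hle : HH K L ≤ N := fun g hg Q hQ => htriv g hg Q hQ
  have hneN : HH K L ≠ N := by
    intro h
    apply not_normal hG hK
    rw [h]
    exact hNN
  have htop := eq_top_of_lt hG h2 h3 hle hneN
  obtain ⟨γ, hγ⟩ := exists_smul_eq_of_isGaloisGroup (span {(p : ℤ)}) Q₁ Q₂ (Gal(L/ℚ))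
  have h4 : γ ∈ N := by rw [htop]; exact Subgroup.mem_top γ
  have h5 := h4 Q₁ hQ₁S
  rw [hγ] at h5
  exact hQne h5.symm

end Pool.Agent.Y772.CB
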